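import Pool.Agent.H76.PS.Defs2

/-!
# Job D2: the `2`-units of the fields
-/

set_option autoImplicit false

namespace Pool.Agent.K7.H15.PS

open Pool.Agent.H76.PS
open Pool.Agent.Y715.Gi (QB KK GK i₀_mem gk_fix)
open Pool.Agent.Y715.Nr Pool.Agent.W237.RK
open Pool.Agent.Z384 (II DD DDs Fld exists_conj)
open Polynomial

lemma finrank_KK {s : QB} {d : ℕ} (hs : s ^ 2 = -(d : QB)) (hd : d ≠ 0) :
    Module.finrank ℚ (KK s) = 2 := by
  have hint : IsIntegral ℚ s := (Algebra.IsAlgebraic.isAlgebraic s).isIntegral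
  rw [IntermediateField.adjoin.finrank hint]
  have h1 : (minpoly ℚ s).natDegree ≤ 2 := by
    have hm : (X ^ 2 + C (d : ℚ) : ℚ[X]).Monic := by monicity!
    have h2 := minpoly.min ℚ s hm (by
      simp only [map_add, map_pow, aeval_X, hs, map_natCast]
      ring)
    have h3 := natDegree_le_natDegree h2
    refine h3.trans (le_of_eq ?_)
    compute_degree!
  have h2 : (minpoly ℚ s).natDegree ≠ 1 := by
    intro h
    rw [minpoly.natDegree_eq_one_iff] at h
    obtain ⟨q, hq⟩ := h
    obtain ⟨c, hc⟩ := exists_conj hs hd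
    rw [← hq] at hc
    have h3 := c.commutes q
    rw [hc] at h3
    have h4 : algebraMap ℚ QB q = 0 := by
      have : (2 : QB) * algebraMap ℚ QB q = 0 := by linear_combination -h3
      rcases mul_eq_zero.1 this with h5 | h5
      · exact absurd h5 (by norm_num)
      · exact h5
    rw [← hq, h4] at hs
    have h5 : (d : QB) = 0 := by linear_combination hs
    exact hd (by exact_mod_cast h5)
  have h3 : 0 < (minpoly ℚ s).natDegree := minpoly.natDegree_pos hint
  omega

/-- `1 / 2` is not integral -/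
lemma not_int_half : ¬ IsIntegral ℤ ((1 / 2 : ℚ)) := by
  intro h
  rw [IsIntegrallyClosed.isIntegral_iff] at h
  obtain ⟨y, hy⟩ := h
  rw [eq_intCast] at hy
  have h1 : ((2 * y : ℤ) : ℚ) = ((1 : ℤ) : ℚ) := by
    push_cast
    rw [hy]
    norm_num
  have h2 : 2 * y = 1 := by exact_mod_cast h1
  omega

lemma not_int {s : QB} {d : ℕ} (hs : s ^ 2 = -(d : QB)) (hd : d ≠ 0) {x : QB}
    (hx : x = (1 + s) / 4 ∨ x = (1 - s) / 4) : ¬ IsIntegral ℤ x := by
  intro h
  obtain ⟨c, hc⟩ := exists_conj hs hd
  have h1 : IsIntegral ℤ (c x) := h.map (c.toAlgHom.restrictScalars ℤ)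
  have h2 : IsIntegral ℤ (x + c x) := h.add h1
  have h3 : x + c x = algebraMap ℚ QB (1 / 2) := by
    rw [map_div₀, map_one, map_ofNat]
    rcases hx with rfl | rfl
    · rw [map_div₀, map_add, hc, map_one, map_ofNat]
      ring
    · rw [map_div₀, map_sub, hc, map_one, map_ofNat]
      ring
  rw [h3, isIntegral_algebraMap_iff (algebraMap ℚ QB).injective] at h2
  exact not_int_half h2

theorem stD2 : StD2 := by
  intro hD1 s d hs hF U hU
  have hd : d ≠ 0 := hF.ne_zero
  have hmod := hF.mod
  obtain ⟨k, hk⟩ : ∃ k : ℕ, d + 1 = 8 * k := ⟨(d + 1) / 8, by omega⟩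
  let L : IntermediateField (KK s) QB := IntermediateField.fixedField U
  have hfix : L.fixingSubgroup = U :=
    InfiniteGalois.fixingSubgroup_fixedField ⟨U, U.isClosed_of_isOpen hU⟩
  have hfd : FiniteDimensional (KK s) L := (InfiniteGalois.isOpen_iff_finite L).1 (by
    rw [hfix]; exact hU)
  have hfr : Module.finrank (KK s) L = U.index := by
    rw [IntermediateField.finrank_eq_fixingSubgroup_index, hfix]
  have hKfd : FiniteDimensional ℚ (KK s) := Module.finite_of_finrank_pos (by
    rw [finrank_KK hs hd]; norm_num)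
  have hLfd : FiniteDimensional ℚ L := FiniteDimensional.trans ℚ (KK s) L
  have hLr : Module.finrank ℚ L = 2 * U.index := by
    rw [← hfr, ← finrank_KK hs hd, Module.finrank_mul_finrank]
  have hNF : NumberField L := { to_charZero := inferInstance, to_finiteDimensional := hLfd }
  let sL : L := algebraMap (KK s) L ⟨s, i₀_mem⟩
  have hsL : (sL : QB) = s := rfl
  have hsL2 : sL ^ 2 = -(d : L) := by
    apply Subtype.ext
    push_cast
    rw [hsL, hs]
  have hcpx : NumberField.InfinitePlace.nrRealPlaces L = 0 := by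
    classical
    have hE : IsEmpty {w : NumberField.InfinitePlace L // w.IsReal} := by
      refine ⟨fun w => ?_⟩
      have h1 : (NumberField.InfinitePlace.embedding_of_isReal w.2 sL) ^ 2 = -(d : ℝ) := by
        rw [← map_pow, hsL2, map_neg, map_natCast]
      have h3 : (0 : ℝ) < d := by exact_mod_cast Nat.pos_of_ne_zero hd
      nlinarith [sq_nonneg (NumberField.InfinitePlace.embedding_of_isReal w.2 sL)]
    unfold NumberField.InfinitePlace.nrRealPlaces
    rw [Fintype.card_eq_zero_iff]
    exact hE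
  -- the element `(1 + s) / 2`
  have hkL : (d : L) + 1 = 8 * (k : L) := by exact_mod_cast congrArg (Nat.cast (R := L)) hk
  have hwint : IsIntegral ℤ ((1 + sL) / 2) := by
    refine ⟨X ^ 2 - X + C (2 * (k : ℤ)), by monicity!, ?_⟩
    rw [eval₂_add, eval₂_sub, eval₂_pow, eval₂_X, eval₂_C, eq_intCast]
    push_cast
    linear_combination (1 / 4 : L) * hsL2 - (1 / 4 : L) * hkL
  let w : NumberField.RingOfIntegers L := ⟨(1 + sL) / 2, hwint⟩
  have hw : ((w : L) : QB) = (1 + s) / 2 := by
    rfl
  have hww : w * (1 - w) = 2 * (k : NumberField.RingOfIntegers L) := by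
    apply NumberField.RingOfIntegers.ext
    have h0 : ((1 + sL) / 2) * (1 - (1 + sL) / 2) = 2 * (k : L) := by
      linear_combination (-1 / 4 : L) * hsL2 + (1 / 4 : L) * hkL
    exact h0
  have hval : ∀ v : NumberField.RingOfIntegers L, IsIntegral ℤ ((v : L) : QB) := by
    intro v
    exact v.2.map (L.val.restrictScalars ℤ)
  have hI1 : Ideal.span {(2 : NumberField.RingOfIntegers L), w} ≠ ⊤ := by
    rw [Ideal.ne_top_iff_one, Ideal.mem_span_pair]
    rintro ⟨a, b, hab⟩
    refine not_int hs hd (x := (((a * (1 - w) + b * k : NumberField.RingOfIntegers L) : L) : QB))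
      (Or.inr ?_) (hval _)
    have h1 : 2 * (a * (1 - w) + b * k) = 1 - w := by
      linear_combination (1 - w) * hab - b * hww
    have h2 : (2 : QB) * (((a * (1 - w) + b * k : NumberField.RingOfIntegers L) : L) : QB) =
        1 - ((w : L) : QB) := congrArg (fun v : NumberField.RingOfIntegers L => ((v : L) : QB)) h1
    rw [hw] at h2
    linear_combination (1 / 2 : QB) * h2
  have hI2 : Ideal.span {(2 : NumberField.RingOfIntegers L), 1 - w} ≠ ⊤ := by
    rw [Ideal.ne_top_iff_one, Ideal.mem_span_pair]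
    rintro ⟨a, b, hab⟩
    refine not_int hs hd (x := (((a * w + b * k : NumberField.RingOfIntegers L) : L) : QB))
      (Or.inl ?_) (hval _)
    have h1 : 2 * (a * w + b * k) = w := by
      linear_combination w * hab - b * hww
    have h2 : (2 : QB) * (((a * w + b * k : NumberField.RingOfIntegers L) : L) : QB) =
        ((w : L) : QB) := congrArg (fun v : NumberField.RingOfIntegers L => ((v : L) : QB)) h1
    rw [hw] at h2
    linear_combination (1 / 2 : QB) * h2
  obtain ⟨P₁, hP₁, hI1P⟩ := Ideal.exists_le_maximal _ hI1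
  obtain ⟨P₂, hP₂, hI2P⟩ := Ideal.exists_le_maximal _ hI2
  have hne : P₁ ≠ P₂ := by
    rintro rfl
    apply hP₁.ne_top
    rw [Ideal.eq_top_iff_one]
    have h1 : w ∈ P₁ := hI1P (Ideal.subset_span (by simp))
    have h2 : 1 - w ∈ P₁ := hI2P (Ideal.subset_span (by simp))
    have := P₁.add_mem h1 h2
    simpa using this
  obtain ⟨u, hu0, hu2, huS⟩ := hD1 L U.index hLr hcpx P₁ P₂ hP₁.isPrime hP₂.isPrime hne
    (hI1P (Ideal.subset_span (by simp))) (hI2P (Ideal.subset_span (by simp)))
  refine ⟨fun i => (u i : QB), ?_, ?_, ?_⟩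
  · intro i σ hσ
    exact (u i).2 ⟨σ, hσ⟩
  · intro i
    obtain ⟨m, h1, h2⟩ := hu2 i
    refine ⟨fun h => hu0 i (Subtype.ext h), m, ?_, ?_⟩
    · exact h1.map (L.val.restrictScalars ℤ)
    · exact h2.map (L.val.restrictScalars ℤ)
  · rintro S ⟨y, hy, hyS⟩
    apply huS S
    refine ⟨⟨y, fun σ => hy σ σ.2⟩, ?_⟩
    apply Subtype.ext
    push_cast
    rw [← hyS, pow_two]

end Pool.Agent.K7.H15.PS
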