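import Pool.Agent.H76.PS.Defs2

/-!
# Job E1: the restriction homomorphism of the local Galois group
-/

set_option autoImplicit false

namespace Pool.Agent.K7.H15.PS

open Pool.Agent.H76.PS
open Pool.Agent.Y715.Gi (QB KK GK i₀_mem gk_fix)
open Pool.Agent.Y715.Nr Pool.Agent.W237.RK
open Pool.Agent.Y715.Df (Cmp exists_cmp)
open Pool.Agent.Z384 (II DD DDs Fld two_fix)

lemma cmp_unique {s : QB} {ι : QB →ₐ[ℚ] PadicAlgCl 2} {τ : Au 2} {σ σ' : GK s} (h : Cmp ι τ σ)
    (h' : Cmp ι τ σ') : σ = σ' := by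
  ext x
  refine ι.injective ?_
  exact (h x).symm.trans (h' x)

theorem stE1 : StE1 := by
  intro s d hs hF ι₀
  have hfix : ∀ τ : Au 2, τ (ι₀ s) = ι₀ s := by
    intro τ
    refine two_fix hF.mod ?_ τ
    rw [← map_pow, hs, map_neg, map_natCast]
  have hex : ∀ τ : Au 2, ∃ σ : GK s, Cmp ι₀ τ σ := fun τ => exists_cmp ι₀ τ (hfix τ)
  choose r hr using hex
  have hmul : ∀ τ τ', r (τ * τ') = r τ * r τ' := fun τ τ' =>
    cmp_unique (hr _) ((hr τ).mul (hr τ'))
  let R : Au 2 →* GK s := MonoidHom.mk' r hmul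
  refine ⟨R, ?_, hr, ?_⟩
  · refine continuous_of_continuousAt_one R ?_
    rw [ContinuousAt, map_one]
    intro N hN
    rw [krullTopology_mem_nhds_one_iff] at hN
    obtain ⟨E, hE, hEN⟩ := hN
    rw [Filter.mem_map, krullTopology_mem_nhds_one_iff]
    let b := Module.finBasis (KK s) E
    let T : Set (PadicAlgCl 2) := Set.range (fun i => ι₀ ((b i : E) : QB))
    have hTf : T.Finite := Set.finite_range _
    refine ⟨IntermediateField.adjoin ℚ_[2] T, ?_, ?_⟩
    · have : Finite T := hTf
      exact IntermediateField.finiteDimensional_adjoin fun x _ =>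
        (Algebra.IsAlgebraic.isAlgebraic x).isIntegral
    · intro τ hτ
      apply hEN
      rw [SetLike.mem_coe, IntermediateField.mem_fixingSubgroup_iff] at hτ
      rw [SetLike.mem_coe, IntermediateField.mem_fixingSubgroup_iff]
      have hb : ∀ i, R τ ((b i : E) : QB) = ((b i : E) : QB) := by
        intro i
        refine ι₀.injective ?_
        have h1 := hr τ ((b i : E) : QB)
        refine h1.symm.trans ?_
        exact hτ _ (IntermediateField.subset_adjoin _ _ ⟨i, rfl⟩)
      intro x hx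
      have hx' := congrArg (fun y : E => (y : QB)) (b.sum_repr ⟨x, hx⟩)
      simp only at hx'
      rw [← hx']
      rw [IntermediateField.coe_sum, map_sum]
      refine Finset.sum_congr rfl fun i _ => ?_
      rw [IntermediateField.coe_smul, Algebra.smul_def, map_mul, hb, AlgEquiv.commutes]
  · ext σ
    constructor
    · rintro ⟨τ, rfl⟩
      exact ⟨τ, hr τ⟩
    · rintro ⟨τ, hτ⟩
      exact ⟨τ, cmp_unique (hr τ) hτ⟩

end Pool.Agent.K7.H15.PS
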